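import Mathlib
import Pool.Agent.LibHLP.DivBound

/-! collisions: pairs of points on the same curve with different `x`. -/

namespace Pool.Agent.MA44

noncomputable section

open Finset

/-- integer divisors -/
def dv (D : ℤ) : Finset ℤ :=
  D.natAbs.divisors.image (fun d : ℕ => (d:ℤ)) ∪ D.natAbs.divisors.image (fun d : ℕ => -(d:ℤ))

lemma mem_dv {D w : ℤ} (hD : D ≠ 0) (h : w ∣ D) : w ∈ dv D := by
  unfold dv
  have h1 : w.natAbs ∈ D.natAbs.divisors := by
    rw [Nat.mem_divisors]
    exact ⟨Int.natAbs_dvd_natAbs.mpr h, Int.natAbs_ne_zero.mpr hD⟩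
  rw [mem_union, mem_image, mem_image]
  rcases Int.natAbs_eq w with h2 | h2
  · left; exact ⟨w.natAbs, h1, h2.symm⟩
  · right; exact ⟨w.natAbs, h1, h2.symm⟩

lemma card_dv (D : ℤ) : (dv D).card ≤ 2 * D.natAbs.divisors.card := by
  unfold dv
  refine (card_union_le _ _).trans ?_
  have h1 : (D.natAbs.divisors.image (fun d : ℕ => (d:ℤ))).card ≤ D.natAbs.divisors.card :=
    card_image_le
  have h2 : (D.natAbs.divisors.image (fun d : ℕ => -(d:ℤ))).card ≤ D.natAbs.divisors.card :=
    card_image_le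
  omega

/-- collisions in a finite set of pairs -/
def Col (A : Finset (ℤ × ℤ)) : Finset ((ℤ × ℤ) × (ℤ × ℤ)) :=
  (A ×ˢ A).filter (fun P => P.1.2^2 - P.1.1^3 = P.2.2^2 - P.2.1^3 ∧ P.1.1 ≠ P.2.1)

/-- the value `k` -/
def kk (P : ℤ × ℤ) : ℤ := P.2^2 - P.1^3

lemma card_le_col (A : Finset (ℤ × ℤ)) : A.card ≤ 2 * (A.image kk).card + (Col A).card := by
  classical
  have h1 : A.card = ∑ k ∈ A.image kk, (A.filter (fun P => kk P = k)).card :=
    card_eq_sum_card_fiberwise (fun P hP => mem_image_of_mem kk hP)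
  have h2 : (Col A).card = ∑ k ∈ A.image kk, ((Col A).filter (fun P => kk P.1 = k)).card := by
    apply card_eq_sum_card_fiberwise
    intro P hP
    have hP' : P ∈ Col A := hP
    unfold Col at hP'
    rw [mem_filter, mem_product] at hP'
    exact mem_image_of_mem kk hP'.1.1
  rw [h1, h2, mul_comm 2, ← smul_eq_mul, ← sum_const, ← sum_add_distrib]
  apply sum_le_sum
  intro k hk
  rw [mem_image] at hk
  obtain ⟨P0, hP0, hk0⟩ := hk
  set F := A.filter (fun P => kk P = k) with hF
  have h3 : F ⊆ F.filter (fun P => P.1 = P0.1) ∪ F.filter (fun P => P.1 ≠ P0.1) := by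
    intro P hP
    by_cases h : P.1 = P0.1
    · exact mem_union_left _ (mem_filter.mpr ⟨hP, h⟩)
    · exact mem_union_right _ (mem_filter.mpr ⟨hP, h⟩)
  have h4 : (F.filter (fun P => P.1 = P0.1)).card ≤ 2 := by
    have : F.filter (fun P => P.1 = P0.1) ⊆ {(P0.1, P0.2), (P0.1, -P0.2)} := by
      intro P hP
      rw [mem_filter, hF, mem_filter] at hP
      obtain ⟨⟨-, hPk⟩, hx⟩ := hP
      have e : P.2^2 = P0.2^2 := by
        have e1 : kk P = kk P0 := by rw [hPk, hk0]
        unfold kk at e1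
        rw [hx] at e1
        linarith
      rw [mem_insert, mem_singleton]
      rcases sq_eq_sq_iff_eq_or_eq_neg.mp e with h | h
      · left; exact Prod.ext hx h
      · right; exact Prod.ext hx h
    exact (card_le_card this).trans card_le_two
  have h5 : (F.filter (fun P => P.1 ≠ P0.1)).card
      ≤ ((Col A).filter (fun P => kk P.1 = k)).card := by
    apply card_le_card_of_injOn (fun P => (P, P0))
    · intro P hP
      have hP' : P ∈ F.filter (fun P => P.1 ≠ P0.1) := hP
      rw [mem_filter, hF, mem_filter] at hP'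
      obtain ⟨⟨hPA, hPk⟩, hx⟩ := hP'
      have : (P, P0) ∈ (Col A).filter (fun P => kk P.1 = k) := by
        rw [mem_filter]
        refine ⟨?_, hPk⟩
        unfold Col
        rw [mem_filter, mem_product]
        refine ⟨⟨hPA, hP0⟩, ?_, hx⟩
        have e1 : kk P = kk P0 := by rw [hPk, hk0]
        exact e1
      exact this
    · intro P _ Q _ h
      exact (Prod.ext_iff.mp h).1
  calc F.card ≤ _ := card_le_card h3
    _ ≤ _ := card_union_le _ _
    _ ≤ 2 + ((Col A).filter (fun P => kk P.1 = k)).card := Nat.add_le_add h4 h5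

/-- collision bound -/
lemma card_Col {A : Finset (ℤ × ℤ)} {I : Finset ℤ} {τ : ℕ} (hA : ∀ P ∈ A, P.1 ∈ I)
    (hτ : ∀ x ∈ I, ∀ x' ∈ I, x ≠ x' → (dv (x^3 - x'^3)).card ≤ τ) :
    (Col A).card ≤ I.card * I.card * τ := by
  classical
  set T : Finset ((_ : ℤ × ℤ) × ℤ) :=
    ((I ×ˢ I).filter (fun z => z.1 ≠ z.2)).sigma (fun z => dv (z.1^3 - z.2^3)) with hT
  have h1 : (Col A).card ≤ T.card := by
    apply card_le_card_of_injOn
      (fun P => (⟨(P.1.1, P.2.1), P.1.2 - P.2.2⟩ : (_ : ℤ × ℤ) × ℤ))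
    · intro P hP
      have hP' : P ∈ Col A := hP
      unfold Col at hP'
      rw [mem_filter, mem_product] at hP'
      obtain ⟨⟨h1, h2⟩, h3, h4⟩ := hP'
      have : (⟨(P.1.1, P.2.1), P.1.2 - P.2.2⟩ : (_ : ℤ × ℤ) × ℤ) ∈ T := by
        rw [hT, mem_sigma, mem_filter, mem_product]
        refine ⟨⟨⟨hA P.1 h1, hA P.2 h2⟩, h4⟩, ?_⟩
        apply mem_dv
        · simp only
          intro h
          apply h4
          have h5 : P.1.1^3 = P.2.1^3 := by linarith
          exact (Odd.strictMono_pow (by decide : Odd 3)).injective h5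
        · simp only
          refine ⟨P.1.2 + P.2.2, ?_⟩
          linear_combination -h3
      exact this
    · intro P hP Q hQ h
      have hP' : P ∈ Col A := hP
      have hQ' : Q ∈ Col A := hQ
      unfold Col at hP' hQ'
      rw [mem_filter, mem_product] at hP' hQ'
      simp only [Sigma.mk.injEq, Prod.mk.injEq, heq_eq_eq] at h
      obtain ⟨⟨e1, e2⟩, e3⟩ := h
      have hD : P.1.1^3 - P.2.1^3 ≠ 0 := by
        intro h
        apply hP'.2.2
        have h5 : P.1.1^3 = P.2.1^3 := by linarith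
        exact (Odd.strictMono_pow (by decide : Odd 3)).injective h5
      have a1 : (P.1.2 - P.2.2) * (P.1.2 + P.2.2) = P.1.1^3 - P.2.1^3 := by
        linear_combination hP'.2.1
      have a2 : (Q.1.2 - Q.2.2) * (Q.1.2 + Q.2.2) = Q.1.1^3 - Q.2.1^3 := by
        linear_combination hQ'.2.1
      have hw : P.1.2 - P.2.2 ≠ 0 := by
        intro h; rw [h, zero_mul] at a1; exact hD a1.symm
      have a3 : P.1.2 + P.2.2 = Q.1.2 + Q.2.2 := by
        apply mul_left_cancel₀ hw
        rw [a1, e3, a2, e1, e2]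
      have b1 : P.1.2 = Q.1.2 := by linarith
      have b2 : P.2.2 = Q.2.2 := by linarith
      exact Prod.ext (Prod.ext e1 b1) (Prod.ext e2 b2)
  refine h1.trans ?_
  rw [hT, card_sigma]
  refine (sum_le_card_nsmul _ _ τ ?_).trans ?_
  · intro z hz
    rw [mem_filter, mem_product] at hz
    exact hτ _ hz.1.1 _ hz.1.2 hz.2
  · rw [smul_eq_mul]
    apply Nat.mul_le_mul_right
    refine (card_filter_le _ _).trans ?_
    rw [card_product]

end

end Pool.Agent.MA44
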