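import Mathlib

/-! slices: number of integers `y` with `0 < |y^2 - x^3| ≤ K`. -/

namespace Pool.Agent.MA44

noncomputable section

/-- length of the slice at `u` -/
def g (K u : ℝ) : ℝ := 2 * (Real.sqrt (u^3 + K) - Real.sqrt (u^3 - K))

/-- integer slice -/
def slice (K : ℝ) (x : ℤ) : Finset ℤ :=
  (Finset.Icc (-⌊Real.sqrt ((x:ℝ)^3 + K)⌋) ⌊Real.sqrt ((x:ℝ)^3 + K)⌋).filter
    (fun y => y^2 ≠ x^3 ∧ |(y:ℝ)^2 - (x:ℝ)^3| ≤ K)

lemma mem_slice {K : ℝ} {x y : ℤ} :
    y ∈ slice K x ↔ (y^2 ≠ x^3 ∧ |(y:ℝ)^2 - (x:ℝ)^3| ≤ K) := by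
  unfold slice
  rw [Finset.mem_filter]
  constructor
  · exact fun h => h.2
  · intro h
    refine ⟨?_, h⟩
    have h2 := (abs_le.mp h.2).2
    have h3 : |(y:ℝ)| ≤ Real.sqrt ((x:ℝ)^3 + K) := by
      apply Real.le_sqrt_of_sq_le
      rw [sq_abs]; linarith
    have h4 := abs_le.mp h3
    rw [Finset.mem_Icc]
    constructor
    · have : (-y : ℤ) ≤ ⌊Real.sqrt ((x:ℝ)^3 + K)⌋ := by
        rw [Int.le_floor]; push_cast; linarith [h4.1]
      linarith
    · rw [Int.le_floor]; exact h4.2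

lemma slice_empty {K : ℝ} {x : ℤ} (h : (x:ℝ)^3 + K < 0) : slice K x = ∅ := by
  apply Finset.eq_empty_of_forall_notMem
  intro y hy
  rw [mem_slice] at hy
  have h2 := (abs_le.mp hy.2).2
  nlinarith [sq_nonneg (y:ℝ)]

lemma card_A {v1 v2 : ℝ} (h : v1 ≤ v2) :
    ((Finset.Icc ⌈v1⌉ ⌊v2⌋).card : ℝ) ≤ v2 - v1 + 1 ∧
    v2 - v1 - 1 ≤ ((Finset.Icc ⌈v1⌉ ⌊v2⌋).card : ℝ) := by
  rw [Int.card_Icc]
  have h1 := Int.floor_le v2
  have h2 := Int.lt_floor_add_one v2
  have h3 := Int.le_ceil v1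
  have h4 := Int.ceil_lt_add_one v1
  constructor
  · rcases le_total 0 (⌊v2⌋ + 1 - ⌈v1⌉) with h0 | h0
    · have e : (((⌊v2⌋ + 1 - ⌈v1⌉).toNat : ℕ) : ℝ) = (⌊v2⌋:ℝ) + 1 - ⌈v1⌉ := by
        have := Int.toNat_of_nonneg h0
        have := congrArg (fun z : ℤ => (z:ℝ)) this
        push_cast at this
        exact_mod_cast this
      rw [e]; linarith
    · rw [Int.toNat_of_nonpos h0]; push_cast; linarith
  · have e : (⌊v2⌋:ℝ) + 1 - ⌈v1⌉ ≤ (((⌊v2⌋ + 1 - ⌈v1⌉).toNat : ℕ) : ℝ) := by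
      have := Int.self_le_toNat (⌊v2⌋ + 1 - ⌈v1⌉)
      have h5 : (((⌊v2⌋ + 1 - ⌈v1⌉ : ℤ)) : ℝ) ≤ (((⌊v2⌋ + 1 - ⌈v1⌉).toNat : ℤ) : ℝ) := by
        exact_mod_cast this
      push_cast at h5
      exact_mod_cast h5
    linarith

lemma sqrt_mono_K {K a : ℝ} (hK : 0 ≤ K) : Real.sqrt (a - K) ≤ Real.sqrt (a + K) :=
  Real.sqrt_le_sqrt (by linarith)

lemma slice_upper {K : ℝ} (hK : 0 ≤ K) (x : ℤ) : ((slice K x).card : ℝ) ≤ g K x + 2 := by
  set v1 := Real.sqrt ((x:ℝ)^3 - K) with hv1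
  set v2 := Real.sqrt ((x:ℝ)^3 + K) with hv2
  have h12 : v1 ≤ v2 := sqrt_mono_K hK
  set A := Finset.Icc ⌈v1⌉ ⌊v2⌋ with hA
  have hsub : slice K x ⊆ A ∪ A.image (fun y => -y) := by
    intro y hy
    rw [mem_slice] at hy
    obtain ⟨-, hy⟩ := hy
    have hh := abs_le.mp hy
    have hu : |(y:ℝ)| ≤ v2 := by
      apply Real.le_sqrt_of_sq_le
      rw [sq_abs]; linarith
    have hl : v1 ≤ |(y:ℝ)| := by
      apply Real.sqrt_le_iff.mpr
      refine ⟨abs_nonneg _, ?_⟩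
      rw [sq_abs]; linarith
    rw [Finset.mem_union, Finset.mem_image]
    rcases le_total 0 y with h0 | h0
    · left
      have : |(y:ℝ)| = y := abs_of_nonneg (by exact_mod_cast h0)
      rw [this] at hu hl
      rw [hA, Finset.mem_Icc, Int.ceil_le, Int.le_floor]
      exact ⟨hl, hu⟩
    · right
      have : |(y:ℝ)| = -y := abs_of_nonpos (by exact_mod_cast h0)
      rw [this] at hu hl
      refine ⟨-y, ?_, by ring⟩
      rw [hA, Finset.mem_Icc, Int.ceil_le, Int.le_floor]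
      push_cast
      exact ⟨hl, hu⟩
  have h1 : (slice K x).card ≤ A.card + A.card :=
    (Finset.card_le_card hsub).trans ((Finset.card_union_le _ _).trans
      (Nat.add_le_add_left Finset.card_image_le _))
  have h2 : ((slice K x).card : ℝ) ≤ A.card + A.card := by exact_mod_cast h1
  have h3 := (card_A h12).1
  unfold g
  rw [← hv1, ← hv2]
  linarith

lemma slice_lower {K : ℝ} (hK : 0 ≤ K) (x : ℤ) : g K x - 6 ≤ ((slice K x).card : ℝ) := by
  set v1 := Real.sqrt ((x:ℝ)^3 - K) with hv1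
  set v2 := Real.sqrt ((x:ℝ)^3 + K) with hv2
  have h12 : v1 ≤ v2 := sqrt_mono_K hK
  rcases lt_or_ge ((x:ℝ)^3 + K) 0 with hneg | hpos
  · have e2 : v2 = 0 := by rw [hv2]; exact Real.sqrt_eq_zero_of_nonpos hneg.le
    have e1 : v1 = 0 := le_antisymm (by rw [← e2]; exact h12) (Real.sqrt_nonneg _)
    unfold g
    rw [← hv1, ← hv2, e1, e2]
    have : (0:ℝ) ≤ ((slice K x).card : ℝ) := by positivity
    linarith
  set A := Finset.Icc ⌈v1⌉ ⌊v2⌋ with hA
  -- positive part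
  set Z := A.filter (fun y => y = 0 ∨ y^2 = x^3) with hZ
  set P := A.filter (fun y => ¬ (y = 0 ∨ y^2 = x^3)) with hP
  have hA0 : ∀ y ∈ A, 0 ≤ y := by
    intro y hy
    rw [hA, Finset.mem_Icc] at hy
    have : (0:ℤ) ≤ ⌈v1⌉ := Int.ceil_nonneg (Real.sqrt_nonneg _)
    linarith [hy.1]
  have hcard : Z.card + P.card = A.card := Finset.card_filter_add_card_filter_not _
  have hZ2 : Z.card ≤ 2 := by
    have : Z ⊆ {0} ∪ A.filter (fun y => y^2 = x^3) := by
      intro y hy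
      rw [hZ, Finset.mem_filter] at hy
      rw [Finset.mem_union, Finset.mem_singleton, Finset.mem_filter]
      rcases hy.2 with h | h
      · left; exact h
      · right; exact ⟨hy.1, h⟩
    have h1 : (A.filter (fun y => y^2 = x^3)).card ≤ 1 := by
      rw [Finset.card_le_one]
      intro a ha b hb
      rw [Finset.mem_filter] at ha hb
      have ha0 := hA0 a ha.1
      have hb0 := hA0 b hb.1
      have : a^2 = b^2 := by rw [ha.2, hb.2]
      exact (pow_left_inj₀ ha0 hb0 (by norm_num)).mp this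
    calc Z.card ≤ _ := Finset.card_le_card this
      _ ≤ ({0} : Finset ℤ).card + (A.filter (fun y => y^2 = x^3)).card := Finset.card_union_le _ _
      _ ≤ 1 + 1 := by
        apply Nat.add_le_add _ h1
        simp
  have hmem : ∀ y ∈ P, 0 < y ∧ y^2 ≠ x^3 ∧ |(y:ℝ)^2 - (x:ℝ)^3| ≤ K := by
    intro y hy
    rw [hP, Finset.mem_filter] at hy
    obtain ⟨hyA, hy2⟩ := hy
    push Not at hy2
    have hy0 := hA0 y hyA
    rw [hA, Finset.mem_Icc, Int.ceil_le, Int.le_floor] at hyA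
    have hyR : (0:ℝ) ≤ y := by exact_mod_cast hy0
    refine ⟨lt_of_le_of_ne hy0 (Ne.symm hy2.1), hy2.2, ?_⟩
    rw [abs_le]
    constructor
    · rcases le_total ((x:ℝ)^3 - K) 0 with h | h
      · nlinarith [sq_nonneg (y:ℝ)]
      · have : v1^2 ≤ (y:ℝ)^2 := pow_le_pow_left₀ (Real.sqrt_nonneg _) hyA.1 2
        rw [hv1, Real.sq_sqrt h] at this
        linarith
    · have : (y:ℝ)^2 ≤ v2^2 := pow_le_pow_left₀ hyR hyA.2 2
      rw [hv2, Real.sq_sqrt hpos] at this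
      linarith
  have hsub : P ∪ P.image (fun y => -y) ⊆ slice K x := by
    intro y hy
    rw [Finset.mem_union, Finset.mem_image] at hy
    rw [mem_slice]
    rcases hy with h | ⟨z, hz, rfl⟩
    · exact (hmem y h).2
    · obtain ⟨-, h1, h2⟩ := hmem z hz
      refine ⟨by rwa [neg_sq], ?_⟩
      push_cast
      rwa [neg_sq]
  have hdis : Disjoint P (P.image (fun y => -y)) := by
    rw [Finset.disjoint_left]
    intro y hy hy2
    rw [Finset.mem_image] at hy2
    obtain ⟨z, hz, rfl⟩ := hy2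
    have h1 := (hmem _ hy).1
    have h2 := (hmem _ hz).1
    linarith
  have hc : (P ∪ P.image (fun y => -y)).card = P.card + P.card := by
    rw [Finset.card_union_of_disjoint hdis, Finset.card_image_of_injective _ neg_injective]
  have h1 : P.card + P.card ≤ (slice K x).card := by
    rw [← hc]; exact Finset.card_le_card hsub
  have h2 : ((P.card : ℝ)) + P.card ≤ (slice K x).card := by exact_mod_cast h1
  have h3 : (Z.card : ℝ) + P.card = A.card := by exact_mod_cast hcard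
  have h4 : (Z.card : ℝ) ≤ 2 := by exact_mod_cast hZ2
  have h5 := (card_A h12).2
  unfold g
  rw [← hv1, ← hv2]
  linarith

end

end Pool.Agent.MA44
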