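import Mathlib
import Pool.Agent.LibMA44.M1

/-! the function `g`. -/

namespace Pool.Agent.MA44

noncomputable section

lemma g_continuous (K : ℝ) : Continuous (g K) := by
  unfold g; fun_prop

lemma g_nonneg {K : ℝ} (hK : 0 ≤ K) (u : ℝ) : 0 ≤ g K u := by
  unfold g
  have := sqrt_mono_K (a := u^3) hK
  linarith

/-- `φ a = √(a+K) - √(a-K)` in closed form -/
lemma phi_eq {K a : ℝ} (hK : 0 < K) (ha : K ≤ a) :
    Real.sqrt (a + K) - Real.sqrt (a - K) = 2*K / (Real.sqrt (a + K) + Real.sqrt (a - K)) := by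
  have h1 : 0 < Real.sqrt (a + K) := Real.sqrt_pos.mpr (by linarith)
  have h2 : 0 ≤ Real.sqrt (a - K) := Real.sqrt_nonneg _
  rw [eq_div_iff (by linarith)]
  have e1 : Real.sqrt (a + K) ^2 = a + K := Real.sq_sqrt (by linarith)
  have e2 : Real.sqrt (a - K) ^2 = a - K := Real.sq_sqrt (by linarith)
  nlinarith

lemma phi_anti {K a b : ℝ} (hK : 0 < K) (ha : K ≤ a) (hab : a ≤ b) :
    Real.sqrt (b + K) - Real.sqrt (b - K) ≤ Real.sqrt (a + K) - Real.sqrt (a - K) := by
  rw [phi_eq hK ha, phi_eq hK (ha.trans hab)]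
  have h1 : 0 < Real.sqrt (a + K) := Real.sqrt_pos.mpr (by linarith)
  have h2 : 0 ≤ Real.sqrt (a - K) := Real.sqrt_nonneg _
  have h3 : Real.sqrt (a + K) ≤ Real.sqrt (b + K) := Real.sqrt_le_sqrt (by linarith)
  have h4 : Real.sqrt (a - K) ≤ Real.sqrt (b - K) := Real.sqrt_le_sqrt (by linarith)
  apply div_le_div_of_nonneg_left (by linarith) (by linarith) (by linarith)

lemma phi_mono {K a b : ℝ} (_hK : 0 < K) (hb : b ≤ K) (hab : a ≤ b) :
    Real.sqrt (a + K) - Real.sqrt (a - K) ≤ Real.sqrt (b + K) - Real.sqrt (b - K) := by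
  have e1 : Real.sqrt (a - K) = 0 := Real.sqrt_eq_zero_of_nonpos (by linarith)
  have e2 : Real.sqrt (b - K) = 0 := Real.sqrt_eq_zero_of_nonpos (by linarith)
  rw [e1, e2]
  have := Real.sqrt_le_sqrt (show a + K ≤ b + K by linarith)
  linarith

lemma phi_max {K a : ℝ} (hK : 0 < K) :
    Real.sqrt (a + K) - Real.sqrt (a - K) ≤ 2 * Real.sqrt K := by
  have h0 : Real.sqrt (K + K) - Real.sqrt (K - K) ≤ 2 * Real.sqrt K := by
    rw [sub_self, Real.sqrt_zero, sub_zero]
    have : Real.sqrt (K + K) ≤ Real.sqrt (2^2 * K) := Real.sqrt_le_sqrt (by linarith)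
    rw [Real.sqrt_mul (by norm_num), Real.sqrt_sq (by norm_num)] at this
    exact this
  rcases le_total a K with h | h
  · exact (phi_mono hK le_rfl h).trans h0
  · exact (phi_anti hK le_rfl h).trans h0

lemma g_max {K u : ℝ} (hK : 0 < K) : g K u ≤ 4 * Real.sqrt K := by
  unfold g
  have := phi_max (a := u^3) hK
  linarith

lemma cube_le {u w : ℝ} (h : u ≤ w) : u^3 ≤ w^3 := by
  have : StrictMono (fun x : ℝ => x^3) := Odd.strictMono_pow (by decide)
  exact this.monotone h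

lemma g_anti {K u w : ℝ} (hK : 0 < K) (hu : K ≤ u^3) (huw : u ≤ w) : g K w ≤ g K u := by
  unfold g
  have := phi_anti hK hu (cube_le huw)
  linarith

lemma g_mono {K u w : ℝ} (hK : 0 < K) (hw : w^3 ≤ K) (huw : u ≤ w) : g K u ≤ g K w := by
  unfold g
  have := phi_mono hK hw (cube_le huw)
  linarith

lemma g_zero {K u : ℝ} (hK : 0 ≤ K) (hu : u^3 ≤ -K) : g K u = 0 := by
  unfold g
  rw [Real.sqrt_eq_zero_of_nonpos (by linarith), Real.sqrt_eq_zero_of_nonpos (by linarith)]
  ring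

lemma g_decay {K u : ℝ} (hK : 0 < K) (hu0 : 0 < u) (hu : K ≤ u^3) :
    g K u ≤ 4 * K * u^(-(3:ℝ)/2) := by
  unfold g
  rw [phi_eq hK hu]
  have h3 : 0 < u^3 := by positivity
  have h1 : Real.sqrt (u^3) ≤ Real.sqrt (u^3 + K) := Real.sqrt_le_sqrt (by linarith)
  have h2 : 0 ≤ Real.sqrt (u^3 - K) := Real.sqrt_nonneg _
  have h4 : 0 < Real.sqrt (u^3) := Real.sqrt_pos.mpr h3
  have e : u^(-(3:ℝ)/2) = 1 / Real.sqrt (u^3) := by
    rw [Real.sqrt_eq_rpow, ← Real.rpow_natCast, ← Real.rpow_mul hu0.le, neg_div,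
      Real.rpow_neg hu0.le, one_div]
    norm_num
  rw [e]
  calc 2 * (2*K / (Real.sqrt (u^3 + K) + Real.sqrt (u^3 - K)))
      ≤ 2 * (2*K / Real.sqrt (u^3)) := by
        apply mul_le_mul_of_nonneg_left _ (by norm_num)
        apply div_le_div_of_nonneg_left (by linarith) h4 (by linarith)
    _ = _ := by ring

lemma g_scale {K u : ℝ} (hK : 0 < K) :
    g K u = Real.sqrt K * g 1 (K^(-(1:ℝ)/3) * u) := by
  unfold g
  have e : (K^(-(1:ℝ)/3) * u)^3 = K⁻¹ * u^3 := by
    have e1 : (K^(-(1:ℝ)/3))^3 = K⁻¹ := by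
      rw [← Real.rpow_natCast, ← Real.rpow_mul hK.le, ← Real.rpow_neg_one]
      norm_num
    rw [mul_pow, e1]
  rw [e]
  have a1 : u^3 + K = K * (K⁻¹ * u^3 + 1) := by field_simp
  have a2 : u^3 - K = K * (K⁻¹ * u^3 - 1) := by field_simp
  rw [a1, a2, Real.sqrt_mul hK.le, Real.sqrt_mul hK.le]
  ring

open MeasureTheory Set

lemma integrable_g1 : Integrable (g 1) := by
  have hc := g_continuous 1
  rw [← integrableOn_univ]
  have hU : (univ : Set ℝ) = Iic (-1) ∪ (Ioc (-1) 1 ∪ Ioi 1) := by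
    rw [Ioc_union_Ioi_eq_Ioi (by norm_num), Iic_union_Ioi]
  rw [hU]
  refine IntegrableOn.union ?_ (IntegrableOn.union ?_ ?_)
  · have : EqOn (g 1) (fun _ => (0:ℝ)) (Iic (-1)) := by
      intro u hu
      apply g_zero (by norm_num)
      have := cube_le (show u ≤ -1 from hu)
      linarith
    rw [integrableOn_congr_fun this measurableSet_Iic]
    exact integrableOn_zero
  · exact (hc.integrableOn_Icc (a := -1) (b := 1)).mono_set Ioc_subset_Icc_self
  · have h1 : IntegrableOn (fun u : ℝ => 4 * 1 * u^(-(3:ℝ)/2)) (Ioi 1) :=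
      (integrableOn_Ioi_rpow_of_lt (by norm_num) (by norm_num)).const_mul _
    refine Integrable.mono' h1 hc.aestronglyMeasurable ?_
    rw [ae_restrict_iff' measurableSet_Ioi]
    refine Filter.Eventually.of_forall ?_
    intro u hu
    have hu1 : 1 < u := hu
    rw [Real.norm_of_nonneg (g_nonneg (by norm_num) u)]
    apply g_decay (by norm_num) (by linarith)
    have := cube_le hu1.le
    linarith

lemma integrable_g {K : ℝ} (hK : 0 < K) : Integrable (g K) := by
  have h : g K = fun u => Real.sqrt K * g 1 (K^(-(1:ℝ)/3) * u) := by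
    funext u; exact g_scale hK
  rw [h]
  apply Integrable.const_mul
  exact integrable_g1.comp_mul_left' (by positivity)

/-- total integral -/
def I1 : ℝ := ∫ u, g 1 u

lemma integral_g {K : ℝ} (hK : 0 < K) : ∫ u, g K u = K^((5:ℝ)/6) * I1 := by
  have h : g K = fun u => Real.sqrt K * g 1 (K^(-(1:ℝ)/3) * u) := by
    funext u; exact g_scale hK
  rw [h, integral_const_mul, Measure.integral_comp_mul_left (g 1) (K^(-(1:ℝ)/3))]
  unfold I1
  rw [smul_eq_mul, abs_of_pos (by positivity), ← mul_assoc]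
  congr 1
  rw [← Real.rpow_neg hK.le, Real.sqrt_eq_rpow, ← Real.rpow_add hK]
  norm_num

/-- tail of the integral -/
lemma tail_g {K Y : ℝ} (hK : 0 < K) (hY0 : 0 < Y) (hY : K ≤ Y^3) :
    ∫ u in Ioi Y, g K u ≤ 8 * K / Real.sqrt Y := by
  have h1 : IntegrableOn (fun u : ℝ => 4 * K * u^(-(3:ℝ)/2)) (Ioi Y) :=
    (integrableOn_Ioi_rpow_of_lt (by norm_num) hY0).const_mul _
  calc ∫ u in Ioi Y, g K u ≤ ∫ u in Ioi Y, 4 * K * u^(-(3:ℝ)/2) := by
        apply setIntegral_mono_on (integrable_g hK).integrableOn h1 measurableSet_Ioi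
        intro u hu
        have hu1 : Y < u := hu
        apply g_decay hK (by linarith)
        have := cube_le hu1.le
        linarith
    _ = 4 * K * ∫ u in Ioi Y, u^(-(3:ℝ)/2) := by rw [integral_const_mul]
    _ = 8 * K / Real.sqrt Y := by
        rw [integral_Ioi_rpow_of_lt (by norm_num) hY0]
        have e : -(3:ℝ)/2 + 1 = -(1/2) := by norm_num
        rw [e, Real.rpow_neg hY0.le, Real.sqrt_eq_rpow]
        field_simp
        ring

end

end Pool.Agent.MA44
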