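import Mathlib
import Pool.Agent.LibMA44.M2

/-! Riemann sum. -/

namespace Pool.Agent.MA44

noncomputable section

open MeasureTheory Set Finset

lemma sum_Icc_int (a b : ℤ) (f : ℤ → ℝ) :
    ∑ x ∈ Finset.Icc a b, f x = ∑ i ∈ Finset.range (b + 1 - a).toNat, f (a + i) := by
  rw [Int.Icc_eq_finset_map, Finset.sum_map]
  rfl

lemma sum_split (m N : ℕ) (h : m ≤ N) (f : ℝ → ℝ) :
    ∑ x ∈ Finset.Icc (-(m:ℤ)) N, f x
      = ∑ i ∈ Finset.range (2*m+1), f (-(m:ℝ) + i) + ∑ i ∈ Finset.range (N - m), f ((m:ℝ) + 1 + i) := by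
  rw [sum_Icc_int (-(m:ℤ)) N (fun x => f x)]
  have e : ((N:ℤ) + 1 - (-(m:ℤ))).toNat = (2*m+1) + (N - m) := by omega
  rw [e, Finset.sum_range_add]
  congr 1
  · apply Finset.sum_congr rfl
    intro i _
    push_cast; rfl
  · apply Finset.sum_congr rfl
    intro i _
    push_cast
    congr 1; ring

lemma left_sum {K : ℝ} (hK : 0 < K) (m : ℕ) (hm : (m:ℝ)^3 ≤ K) :
    (∫ u in (-((m:ℝ)+1))..m, g K u) ≤ ∑ i ∈ Finset.range (2*m+1), g K (-(m:ℝ) + i) ∧
    ∑ i ∈ Finset.range (2*m+1), g K (-(m:ℝ) + i)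
      ≤ (∫ u in (-((m:ℝ)+1))..m, g K u) + 4 * Real.sqrt K := by
  have hmono : MonotoneOn (g K) (Set.Icc (-((m:ℝ)+1)) (-((m:ℝ)+1) + ((2*m+1 : ℕ):ℝ))) := by
    intro u hu w hw huw
    apply g_mono hK _ huw
    have h1 : w ≤ m := by
      have := hw.2; push_cast at this; linarith
    exact (cube_le h1).trans hm
  have e : -((m:ℝ)+1) + ((2*m+1 : ℕ):ℝ) = m := by push_cast; ring
  have h1 := hmono.integral_le_sum
  have h2 := hmono.sum_le_integral
  rw [e] at h1 h2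
  have e1 : ∀ i : ℕ, -((m:ℝ)+1) + ((i+1 : ℕ) : ℝ) = -(m:ℝ) + i := by intro i; push_cast; ring
  simp only [e1] at h1
  refine ⟨h1, ?_⟩
  have h3 : ∑ i ∈ Finset.range (2*m+1), g K (-(m:ℝ) + i)
      = ∑ i ∈ Finset.range (2*m), g K (-(m:ℝ) + i) + g K m := by
    rw [Finset.sum_range_succ]
    congr 2
    push_cast; ring
  have h4 : ∑ i ∈ Finset.range (2*m+1), g K (-((m:ℝ)+1) + i)
      = ∑ i ∈ Finset.range (2*m), g K (-(m:ℝ) + i) + g K (-((m:ℝ)+1)) := by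
    rw [Finset.sum_range_succ']
    congr 1
    · apply Finset.sum_congr rfl
      intro i _
      rw [e1]
    · simp
  have h5 := g_nonneg hK.le (-((m:ℝ)+1))
  have h6 := g_max (u := (m:ℝ)) hK
  linarith

lemma right_sum {K : ℝ} (hK : 0 < K) (m a : ℕ) (hm : K ≤ ((m:ℝ)+1)^3) :
    (∫ u in ((m:ℝ)+1)..((m:ℝ)+1+a), g K u) ≤ ∑ i ∈ Finset.range a, g K ((m:ℝ) + 1 + i) ∧
    ∑ i ∈ Finset.range a, g K ((m:ℝ) + 1 + i)
      ≤ (∫ u in ((m:ℝ)+1)..((m:ℝ)+1+a), g K u) + 4 * Real.sqrt K := by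
  have hanti : AntitoneOn (g K) (Set.Icc ((m:ℝ)+1) ((m:ℝ)+1 + (a:ℝ))) := by
    intro u hu w hw huw
    apply g_anti hK _ huw
    exact hm.trans (cube_le hu.1)
  have h1 := hanti.integral_le_sum
  have h2 := hanti.sum_le_integral
  refine ⟨h1, ?_⟩
  have h3 : ∑ i ∈ Finset.range (a+1), g K ((m:ℝ) + 1 + i)
      = ∑ i ∈ Finset.range a, g K ((m:ℝ) + 1 + i) + g K ((m:ℝ)+1+a) := Finset.sum_range_succ _ _
  have h4 : ∑ i ∈ Finset.range (a+1), g K ((m:ℝ) + 1 + i)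
      = ∑ i ∈ Finset.range a, g K ((m:ℝ) + 1 + ((i+1 : ℕ):ℝ)) + g K ((m:ℝ)+1) := by
    rw [Finset.sum_range_succ']
    simp
  have h5 := g_nonneg hK.le ((m:ℝ)+1+a)
  have h6 := g_max (u := (m:ℝ)+1) hK
  linarith

lemma total_split {K : ℝ} (hK : 0 < K) (m a : ℕ) (hm : K ≤ ((m:ℝ)+1)^3) :
    ∫ u, g K u = (∫ u in (-((m:ℝ)+1))..m, g K u) + (∫ u in (m:ℝ)..((m:ℝ)+1), g K u)
      + (∫ u in ((m:ℝ)+1)..((m:ℝ)+1+a), g K u) + ∫ u in Set.Ioi ((m:ℝ)+1+a), g K u := by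
  have hi := integrable_g hK
  have hint : ∀ a b : ℝ, IntervalIntegrable (g K) volume a b := fun a b =>
    hi.intervalIntegrable
  have h1 := intervalIntegral.integral_Iic_add_Ioi (b := -((m:ℝ)+1)) hi.integrableOn hi.integrableOn
  have h0 : ∫ u in Set.Iic (-((m:ℝ)+1)), g K u = 0 := by
    have : ∫ u in Set.Iic (-((m:ℝ)+1)), g K u = ∫ u in Set.Iic (-((m:ℝ)+1)), (0:ℝ) := by
      apply setIntegral_congr_fun measurableSet_Iic
      intro u hu
      apply g_zero hK.le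
      have := cube_le (show u ≤ -((m:ℝ)+1) from hu)
      have e : (-((m:ℝ)+1))^3 = -((m:ℝ)+1)^3 := by ring
      rw [e] at this
      linarith
    rw [this, integral_zero]
  have h2 := intervalIntegral.integral_interval_add_Ioi (a := -((m:ℝ)+1)) (b := (m:ℝ)+1+a)
    hi.integrableOn hi.integrableOn
  have h3 := intervalIntegral.integral_add_adjacent_intervals (hint (-((m:ℝ)+1)) m) (hint m ((m:ℝ)+1))
  have h4 := intervalIntegral.integral_add_adjacent_intervals (hint (-((m:ℝ)+1)) ((m:ℝ)+1))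
    (hint ((m:ℝ)+1) ((m:ℝ)+1+a))
  rw [← h1, h0, zero_add, ← h2, ← h4, ← h3]

lemma riemann {K Y : ℝ} (hK : 1 ≤ K) (hY : K^((1:ℝ)/3) ≤ Y) :
    |∑ x ∈ Finset.Icc (-((⌊K^((1:ℝ)/3)⌋₊ : ℕ):ℤ)) ((⌊Y⌋₊ : ℕ):ℤ), g K x - K^((5:ℝ)/6) * I1|
      ≤ 16 * (K / Real.sqrt Y + Y) := by
  have hK0 : 0 < K := by linarith
  set c := K^((1:ℝ)/3) with hc
  have hc1 : 1 ≤ c := Real.one_le_rpow hK (by norm_num)
  have hc3 : c^3 = K := by
    rw [hc, ← Real.rpow_natCast, ← Real.rpow_mul hK0.le]; norm_num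
  set m := ⌊c⌋₊ with hm
  set N := ⌊Y⌋₊ with hN
  have hmN : m ≤ N := Nat.floor_mono hY
  have hm1 : (m:ℝ) ≤ c := Nat.floor_le (by linarith)
  have hm2 : c < m + 1 := Nat.lt_floor_add_one c
  have hN2 : Y < N + 1 := Nat.lt_floor_add_one Y
  have hY0 : 0 < Y := by linarith
  have hmK : (m:ℝ)^3 ≤ K := by rw [← hc3]; exact cube_le hm1
  have hmK' : K ≤ ((m:ℝ)+1)^3 := by rw [← hc3]; exact cube_le hm2.le
  rw [sum_split m N hmN, ← integral_g hK0, total_split hK0 m (N - m) hmK']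
  obtain ⟨l1, l2⟩ := left_sum hK0 m hmK
  obtain ⟨r1, r2⟩ := right_sum hK0 m (N-m) hmK'
  have hend : (m:ℝ)+1+((N-m : ℕ):ℝ) = N + 1 := by
    rw [Nat.cast_sub hmN]; ring
  have hmid0 : 0 ≤ ∫ u in (m:ℝ)..((m:ℝ)+1), g K u :=
    intervalIntegral.integral_nonneg (by linarith) (fun u _ => g_nonneg hK0.le u)
  have hmid1 : ∫ u in (m:ℝ)..((m:ℝ)+1), g K u ≤ 4 * Real.sqrt K := by
    have h := intervalIntegral.integral_mono_on (a := (m:ℝ)) (b := (m:ℝ)+1) (by linarith)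
      (integrable_g hK0).intervalIntegrable
      (intervalIntegrable_const (c := 4 * Real.sqrt K)) (fun u _ => g_max hK0)
    rw [intervalIntegral.integral_const] at h
    simpa using h
  have htail0 : 0 ≤ ∫ u in Set.Ioi ((m:ℝ)+1+((N-m : ℕ):ℝ)), g K u :=
    setIntegral_nonneg measurableSet_Ioi (fun u _ => g_nonneg hK0.le u)
  have htail1 : ∫ u in Set.Ioi ((m:ℝ)+1+((N-m : ℕ):ℝ)), g K u ≤ 8 * K / Real.sqrt Y := by
    rw [hend]
    have h := tail_g (Y := (N:ℝ)+1) hK0 (by positivity) (by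
      rw [← hc3]; exact cube_le (by linarith))
    refine h.trans ?_
    apply div_le_div_of_nonneg_left (by positivity) (Real.sqrt_pos.mpr hY0)
    exact Real.sqrt_le_sqrt hN2.le
  have hsK : Real.sqrt K ≤ K / Real.sqrt Y + Y := by
    rcases le_total (Real.sqrt K) Y with h | h
    · have : 0 ≤ K / Real.sqrt Y := by positivity
      linarith
    · have h1 : Real.sqrt Y ≤ Real.sqrt K := by
        apply Real.sqrt_le_sqrt
        have : Real.sqrt K ≤ K := by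
          rw [Real.sqrt_le_left (by linarith)]; nlinarith
        linarith
      have h2 : Real.sqrt K ≤ K / Real.sqrt Y := by
        rw [le_div_iff₀ (Real.sqrt_pos.mpr hY0)]
        calc Real.sqrt K * Real.sqrt Y ≤ Real.sqrt K * Real.sqrt K := by gcongr
          _ = K := Real.mul_self_sqrt hK0.le
      linarith
  have hq : 8 * K / Real.sqrt Y = 8 * (K / Real.sqrt Y) := by ring
  rw [hq] at htail1
  rw [abs_le]
  constructor <;> nlinarith

end

end Pool.Agent.MA44
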