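import Mathlib
import Pool.Agent.LibMA44.M3

/-! the count of the small points. -/

namespace Pool.Agent.MA44

noncomputable section

open MeasureTheory Set Finset

/-- the pairs counted -/
def PS (K Y : ℝ) : Set (ℤ × ℤ) :=
  {P : ℤ × ℤ | |(P.1:ℝ)| ≤ Y ∧ P.2^2 ≠ P.1^3 ∧ |(P.2:ℝ)^2 - (P.1:ℝ)^3| ≤ K}

def TT (K : ℝ) (m N : ℕ) : Finset (ℤ × ℤ) :=
  ((Finset.Icc (-(m:ℤ)) (N:ℤ)).sigma (fun x => slice K x)).map
    (Equiv.sigmaEquivProd ℤ ℤ).toEmbedding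

lemma mem_TT {K : ℝ} {m N : ℕ} {P : ℤ × ℤ} :
    P ∈ TT K m N ↔ (-(m:ℤ) ≤ P.1 ∧ P.1 ≤ N) ∧ P.2 ∈ slice K P.1 := by
  unfold TT
  rw [Finset.mem_map]
  constructor
  · rintro ⟨⟨x, y⟩, h, rfl⟩
    rw [Finset.mem_sigma, Finset.mem_Icc] at h
    exact h
  · intro h
    refine ⟨⟨P.1, P.2⟩, ?_, rfl⟩
    rw [Finset.mem_sigma, Finset.mem_Icc]
    exact h

lemma card_TT {K : ℝ} {m N : ℕ} :
    ((TT K m N).card : ℝ) = ∑ x ∈ Finset.Icc (-(m:ℤ)) (N:ℤ), ((slice K x).card : ℝ) := by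
  unfold TT
  rw [Finset.card_map, Finset.card_sigma]
  push_cast
  rfl

lemma PS_eq {K Y : ℝ} (hK : 1 ≤ K) (hY : K^((1:ℝ)/3) ≤ Y) :
    PS K Y = (TT K ⌊K^((1:ℝ)/3)⌋₊ ⌊Y⌋₊ : Set (ℤ × ℤ)) := by
  have hK0 : 0 < K := by linarith
  set c := K^((1:ℝ)/3) with hc
  have hc1 : 1 ≤ c := Real.one_le_rpow hK (by norm_num)
  have hc3 : c^3 = K := by
    rw [hc, ← Real.rpow_natCast, ← Real.rpow_mul hK0.le]; norm_num
  have hY0 : 0 ≤ Y := by linarith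
  have hm1 : ((⌊c⌋₊ : ℕ):ℝ) ≤ c := Nat.floor_le (by linarith)
  have hm2 : c < (⌊c⌋₊ : ℕ) + 1 := Nat.lt_floor_add_one c
  have hN1 : ((⌊Y⌋₊ : ℕ):ℝ) ≤ Y := Nat.floor_le hY0
  ext P
  rw [Finset.mem_coe, mem_TT, mem_slice]
  unfold PS
  rw [Set.mem_setOf_eq]
  constructor
  · rintro ⟨h1, h2, h3⟩
    have h1' := abs_le.mp h1
    refine ⟨⟨?_, ?_⟩, h2, h3⟩
    · by_contra hlt
      push Not at hlt
      have h4 : P.1 + 1 ≤ -((⌊c⌋₊ : ℕ):ℤ) := hlt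
      have h5 : (P.1:ℝ) + 1 ≤ -((⌊c⌋₊ : ℕ):ℝ) := by exact_mod_cast h4
      have h6 : (P.1:ℝ) ≤ -((⌊c⌋₊ : ℕ) + 1 : ℝ) := by linarith
      have h7 := cube_le h6
      have h8 : K < ((⌊c⌋₊ : ℕ) + 1 : ℝ)^3 := by
        rw [← hc3]; exact pow_lt_pow_left₀ hm2 (by linarith) (by norm_num)
      have h9 : (-((⌊c⌋₊ : ℕ) + 1 : ℝ))^3 = -((⌊c⌋₊ : ℕ) + 1 : ℝ)^3 := by ring
      rw [h9] at h7
      have h10 := (abs_le.mp h3).2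
      nlinarith [sq_nonneg (P.2:ℝ)]
    · have : P.1 ≤ ⌊Y⌋ := Int.le_floor.mpr h1'.2
      rwa [← Int.natCast_floor_eq_floor hY0] at this
  · rintro ⟨⟨h1, h2⟩, h3, h4⟩
    refine ⟨?_, h3, h4⟩
    have h1' : -((⌊c⌋₊ : ℕ):ℝ) ≤ P.1 := by exact_mod_cast h1
    have h2' : (P.1:ℝ) ≤ (⌊Y⌋₊ : ℕ) := by exact_mod_cast h2
    rw [abs_le]
    constructor <;> linarith

theorem main_term0 {K Y : ℝ} (hK : 1 ≤ K) (hY : K^((1:ℝ)/3) ≤ Y) :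
    (PS K Y).Finite ∧
    |((PS K Y).ncard : ℝ) - I1 * K^((5:ℝ)/6)| ≤ 34 * (K / Real.sqrt Y + Y) := by
  have hK0 : 0 < K := by linarith
  rw [PS_eq hK hY]
  refine ⟨Finset.finite_toSet _, ?_⟩
  rw [Set.ncard_coe_finset, card_TT]
  have hr := riemann hK hY
  set c := K^((1:ℝ)/3) with hc
  have hc1 : 1 ≤ c := Real.one_le_rpow hK (by norm_num)
  have hY0 : 0 ≤ Y := by linarith
  have hm1 : ((⌊c⌋₊ : ℕ):ℝ) ≤ c := Nat.floor_le (by linarith)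
  have hN1 : ((⌊Y⌋₊ : ℕ):ℝ) ≤ Y := Nat.floor_le hY0
  set m := ⌊c⌋₊ with hm
  set N := ⌊Y⌋₊ with hN
  have hs : |∑ x ∈ Finset.Icc (-(m:ℤ)) (N:ℤ), ((slice K x).card : ℝ)
      - ∑ x ∈ Finset.Icc (-(m:ℤ)) (N:ℤ), g K x| ≤ 18 * Y := by
    rw [← Finset.sum_sub_distrib]
    refine (Finset.abs_sum_le_sum_abs _ _).trans ?_
    have h1 : ∀ x ∈ Finset.Icc (-(m:ℤ)) (N:ℤ), |((slice K x).card : ℝ) - g K x| ≤ 6 := by
      intro x _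
      have a1 := slice_upper hK0.le x
      have a2 := slice_lower hK0.le x
      rw [abs_le]; constructor <;> linarith
    refine (Finset.sum_le_card_nsmul _ _ _ h1).trans ?_
    rw [nsmul_eq_mul, Int.card_Icc]
    have e : ((N:ℤ) + 1 - (-(m:ℤ))).toNat = N + 1 + m := by omega
    rw [e]
    push_cast
    linarith
  have e : I1 * K^((5:ℝ)/6) = K^((5:ℝ)/6) * I1 := by ring
  rw [e]
  have hd : 0 ≤ K / Real.sqrt Y := by positivity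
  have := abs_sub_le (∑ x ∈ Finset.Icc (-(m:ℤ)) (N:ℤ), ((slice K x).card : ℝ))
    (∑ x ∈ Finset.Icc (-(m:ℤ)) (N:ℤ), g K x) (K^((5:ℝ)/6) * I1)
  linarith

end

end Pool.Agent.MA44
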