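import Mathlib
import Pool.Agent.LibMA44.M4

/-! the constant is the area of `|v^2 - u^3| ≤ 1`. -/

namespace Pool.Agent.MA44

noncomputable section

open MeasureTheory Set

lemma vol_slice (a : ℝ) :
    volume {v : ℝ | |v^2 - a| ≤ 1}
      = ENNReal.ofReal (2 * (Real.sqrt (a + 1) - Real.sqrt (a - 1))) := by
  rcases lt_or_ge (a + 1) 0 with h1 | h1
  · have e : {v : ℝ | |v^2 - a| ≤ 1} = ∅ := by
      ext v
      simp only [mem_setOf_eq, mem_empty_iff_false, iff_false]
      intro h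
      have := (abs_le.mp h).2
      nlinarith [sq_nonneg v]
    rw [e, Real.sqrt_eq_zero_of_nonpos h1.le, Real.sqrt_eq_zero_of_nonpos (by linarith)]
    simp
  · rcases le_or_gt (a - 1) 0 with h2 | h2
    · have e : {v : ℝ | |v^2 - a| ≤ 1} = Icc (-Real.sqrt (a+1)) (Real.sqrt (a+1)) := by
        ext v
        simp only [mem_setOf_eq, mem_Icc]
        rw [← abs_le (a := v), abs_le, Real.le_sqrt (abs_nonneg _) h1, sq_abs]
        constructor
        · intro h; linarith [h.2]
        · intro h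
          exact ⟨by nlinarith [sq_nonneg v], by linarith⟩
      rw [e, Real.volume_Icc, Real.sqrt_eq_zero_of_nonpos h2]
      congr 1; ring
    · set v1 := Real.sqrt (a - 1) with hv1
      set v2 := Real.sqrt (a + 1) with hv2
      have hp1 : 0 < v1 := Real.sqrt_pos.mpr h2
      have h12 : v1 ≤ v2 := Real.sqrt_le_sqrt (by linarith)
      have s1 : v1^2 = a - 1 := Real.sq_sqrt h2.le
      have s2 : v2^2 = a + 1 := Real.sq_sqrt h1
      have e : {v : ℝ | |v^2 - a| ≤ 1} = Icc v1 v2 ∪ Icc (-v2) (-v1) := by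
        ext v
        simp only [mem_setOf_eq, mem_union, mem_Icc]
        rw [abs_le]
        constructor
        · intro h
          have b1 : |v| ≤ v2 := by
            rw [hv2]; apply Real.le_sqrt_of_sq_le; rw [sq_abs]; linarith [h.2]
          have b2 : v1 ≤ |v| := by
            rw [hv1]; apply Real.sqrt_le_iff.mpr
            refine ⟨abs_nonneg _, ?_⟩
            rw [sq_abs]; linarith [h.1]
          rcases le_total 0 v with h0 | h0
          · left; rw [abs_of_nonneg h0] at b1 b2; exact ⟨b2, b1⟩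
          · right; rw [abs_of_nonpos h0] at b1 b2; constructor <;> linarith
        · rintro (h | h)
          · have c1 : v1^2 ≤ v^2 := pow_le_pow_left₀ hp1.le h.1 2
            have c2 : v^2 ≤ v2^2 := pow_le_pow_left₀ (by linarith) h.2 2
            constructor <;> linarith
          · have c1 : v1^2 ≤ (-v)^2 := pow_le_pow_left₀ hp1.le (by linarith) 2
            have c2 : (-v)^2 ≤ v2^2 := pow_le_pow_left₀ (by linarith) (by linarith) 2
            rw [neg_sq] at c1 c2
            constructor <;> linarith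
      rw [e, measure_union ?_ measurableSet_Icc, Real.volume_Icc, Real.volume_Icc,
        ← ENNReal.ofReal_add (by linarith) (by linarith)]
      · congr 1; ring
      · rw [Set.disjoint_left]
        intro v hv hv'
        have := hv.1
        have := hv'.2
        linarith

/-- the region -/
def Reg : Set (ℝ × ℝ) := {p : ℝ × ℝ | |p.2^2 - p.1^3| ≤ 1}

lemma Reg_closed : IsClosed Reg := by
  unfold Reg
  exact isClosed_le (by fun_prop) continuous_const

lemma vol_Reg : volume Reg = ENNReal.ofReal I1 := by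
  rw [Measure.volume_eq_prod, Measure.prod_apply Reg_closed.measurableSet]
  unfold I1
  rw [ofReal_integral_eq_lintegral_ofReal integrable_g1
    (Filter.Eventually.of_forall (fun u => g_nonneg (by norm_num) u))]
  apply lintegral_congr
  intro u
  have : (Prod.mk u ⁻¹' Reg) = {v : ℝ | |v^2 - u^3| ≤ 1} := rfl
  rw [this, vol_slice]
  rfl

lemma I1_pos : 2 ≤ I1 := by
  have h1 : ∫ _u in Icc (0:ℝ) 1, (2:ℝ) ≤ ∫ u in Icc (0:ℝ) 1, g 1 u := by
    apply setIntegral_mono_on (by simp) integrable_g1.integrableOn measurableSet_Icc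
    intro u hu
    unfold g
    have h3 : u^3 ≤ 1 := by
      have := cube_le hu.2; linarith
    have h4 : 0 ≤ u^3 := pow_nonneg hu.1 3
    rw [Real.sqrt_eq_zero_of_nonpos (show u^3 - 1 ≤ 0 by linarith)]
    have : (1:ℝ) ≤ Real.sqrt (u^3 + 1) := by
      rw [Real.one_le_sqrt]; linarith
    linarith
  have h2 : ∫ u in Icc (0:ℝ) 1, g 1 u ≤ I1 := by
    unfold I1
    apply setIntegral_le_integral integrable_g1
    exact Filter.Eventually.of_forall (fun u => g_nonneg (by norm_num) u)
  have h3 : ∫ _u in Icc (0:ℝ) 1, (2:ℝ) = 2 := by simp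
  linarith

/-- The area of `|v^2 - u^3| ≤ 1`. -/
def V : ℝ := (volume {p : ℝ × ℝ | |p.2^2 - p.1^3| ≤ 1}).toReal

lemma V_eq : V = I1 := by
  unfold V
  change (volume Reg).toReal = I1
  rw [vol_Reg, ENNReal.toReal_ofReal (by linarith [I1_pos])]

lemma V_pos : 0 < V := by rw [V_eq]; linarith [I1_pos]

lemma vol_ne_top : volume {p : ℝ × ℝ | |p.2^2 - p.1^3| ≤ 1} ≠ ⊤ := by
  change volume Reg ≠ ⊤
  rw [vol_Reg]; exact ENNReal.ofReal_ne_top

/-- **Main term**: the number of pairs with `|x| ≤ Y` is `V K^{5/6} + O(K/√Y + Y)`. -/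
theorem main_term : ∃ C : ℝ, 0 < C ∧ ∀ K Y : ℝ, 1 ≤ K → K^((1:ℝ)/3) ≤ Y →
    ({P : ℤ × ℤ | |(P.1:ℝ)| ≤ Y ∧ P.2^2 ≠ P.1^3 ∧ |(P.2:ℝ)^2 - (P.1:ℝ)^3| ≤ K}).Finite ∧
    |(({P : ℤ × ℤ | |(P.1:ℝ)| ≤ Y ∧ P.2^2 ≠ P.1^3 ∧
        |(P.2:ℝ)^2 - (P.1:ℝ)^3| ≤ K}.ncard : ℝ)) - V * K^((5:ℝ)/6)|
      ≤ C * (K / Real.sqrt Y + Y) := by
  refine ⟨34, by norm_num, fun K Y hK hY => ?_⟩
  have h := main_term0 hK hY
  rw [← V_eq] at h
  exact h

end

end Pool.Agent.MA44
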