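import Mathlib
import Pool.Agent.LibMA44.M5
import Pool.Agent.LibMA44.C1

/-! the number of `k`. -/

namespace Pool.Agent.MA44

noncomputable section

open Finset

/-- `k` with `0 < |k| ≤ K` such that `y^2 = x^3 + k` has an integral point with `|x| ≤ X` -/
def BK (K X : ℝ) : Set ℤ :=
  {k : ℤ | k ≠ 0 ∧ |(k:ℝ)| ≤ K ∧ ∃ x y : ℤ, y^2 = x^3 + k ∧ |(x:ℝ)| ≤ X}

lemma BK_eq {K X : ℝ} (h : (PS K X).Finite) : BK K X = (h.toFinset.image kk : Set ℤ) := by
  ext k
  rw [Finset.coe_image, Set.Finite.coe_toFinset]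
  unfold BK PS kk
  constructor
  · rintro ⟨h0, h1, x, y, h2, h3⟩
    refine ⟨(x, y), ⟨h3, ?_, ?_⟩, ?_⟩
    · intro h4; apply h0; simp only at h4; linarith
    · have : (y:ℝ)^2 = (x:ℝ)^3 + k := by exact_mod_cast h2
      simp only
      rw [this]
      have e : (x:ℝ)^3 + k - (x:ℝ)^3 = k := by ring
      rwa [e]
    · simp only; linarith
  · rintro ⟨⟨x, y⟩, ⟨h1, h2, h3⟩, h4⟩
    simp only at h1 h2 h3 h4
    refine ⟨?_, ?_, x, y, by linarith, h1⟩
    · intro h5; apply h2; linarith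
    · have : (k:ℝ) = (y:ℝ)^2 - (x:ℝ)^3 := by rw [← h4]; push_cast; ring
      rwa [this]

/-- upper bound for twice the number of `k` -/
lemma two_card_le {K X : ℝ} (h : (PS K X).Finite) :
    2 * (h.toFinset.image kk).card ≤ h.toFinset.card
      + (h.toFinset.filter (fun P => P.2 = 0)).card := by
  classical
  set A := h.toFinset with hA
  have hneg : ∀ P ∈ A, (P.1, -P.2) ∈ A := by
    intro P hP
    rw [hA, Set.Finite.mem_toFinset] at hP ⊢
    unfold PS at hP ⊢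
    obtain ⟨h1, h2, h3⟩ := hP
    refine ⟨h1, ?_, ?_⟩
    · simp only [neg_sq]; exact h2
    · push_cast; rw [neg_sq]; exact h3
  set Ap := A.filter (fun P => 0 < P.2) with hAp
  set A0 := A.filter (fun P => P.2 = 0) with hA0
  set Am := Ap.image (fun P => (P.1, -P.2)) with hAm
  have hinj : Function.Injective (fun P : ℤ × ℤ => (P.1, -P.2)) := by
    intro P Q hPQ
    simp only [Prod.mk.injEq, neg_inj] at hPQ
    exact Prod.ext hPQ.1 hPQ.2
  have hcm : Am.card = Ap.card := card_image_of_injective _ hinj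
  have h1 : A.image kk ⊆ Ap.image kk ∪ A0.image kk := by
    intro k hk
    rw [mem_image] at hk
    obtain ⟨P, hP, rfl⟩ := hk
    rcases lt_trichotomy P.2 0 with h2 | h2 | h2
    · apply mem_union_left
      rw [mem_image]
      refine ⟨(P.1, -P.2), mem_filter.mpr ⟨hneg P hP, by simp only; linarith⟩, ?_⟩
      unfold kk; simp only; ring
    · exact mem_union_right _ (mem_image_of_mem _ (mem_filter.mpr ⟨hP, h2⟩))
    · exact mem_union_left _ (mem_image_of_mem _ (mem_filter.mpr ⟨hP, h2⟩))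
  have h2 : (A.image kk).card ≤ Ap.card + A0.card :=
    (card_le_card h1).trans ((card_union_le _ _).trans (Nat.add_le_add card_image_le card_image_le))
  have hAmA : Am ⊆ A := by
    intro P hP
    rw [hAm, mem_image] at hP
    obtain ⟨Q, hQ, rfl⟩ := hP
    exact hneg Q (mem_filter.mp hQ).1
  have d1 : Disjoint Ap A0 := by
    rw [Finset.disjoint_left]
    intro P hP hP'
    have a := (mem_filter.mp hP).2
    have b := (mem_filter.mp hP').2
    omega
  have d2 : Disjoint (Ap ∪ A0) Am := by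
    rw [Finset.disjoint_left]
    intro P hP hP'
    rw [hAm, mem_image] at hP'
    obtain ⟨Q, hQ, rfl⟩ := hP'
    have a := (mem_filter.mp hQ).2
    rw [mem_union] at hP
    rcases hP with hP | hP
    · have b := (mem_filter.mp hP).2
      simp only at b; omega
    · have b := (mem_filter.mp hP).2
      simp only at b; omega
  have h3 : ((Ap ∪ A0) ∪ Am).card ≤ A.card := by
    apply card_le_card
    apply union_subset (union_subset (filter_subset _ _) (filter_subset _ _)) hAmA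
  rw [card_union_of_disjoint d2, card_union_of_disjoint d1, hcm] at h3
  omega

lemma card_A0_le {K X : ℝ} (hK : 1 ≤ K) (h : (PS K X).Finite) :
    ((h.toFinset.filter (fun P => P.2 = 0)).card : ℝ) ≤ 3 * K^((1:ℝ)/3) := by
  classical
  have hK0 : 0 < K := by linarith
  set c := K^((1:ℝ)/3) with hc
  have hc1 : 1 ≤ c := Real.one_le_rpow hK (by norm_num)
  have hc3 : c^3 = K := by
    rw [hc, ← Real.rpow_natCast, ← Real.rpow_mul hK0.le]; norm_num
  have hm1 : ((⌊c⌋₊ : ℕ):ℝ) ≤ c := Nat.floor_le (by linarith)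
  set m := ⌊c⌋₊ with hm
  have h1 : (h.toFinset.filter (fun P => P.2 = 0)).card ≤ (Finset.Icc (-(m:ℤ)) m).card := by
    apply card_le_card_of_injOn Prod.fst
    · intro P hP
      have hP' := mem_filter.mp (show P ∈ h.toFinset.filter (fun P => P.2 = 0) from hP)
      obtain ⟨h1, h2⟩ := hP'
      rw [Set.Finite.mem_toFinset] at h1
      unfold PS at h1
      obtain ⟨-, -, h3⟩ := h1
      rw [h2] at h3
      have h4 : |(P.1:ℝ)|^3 ≤ c^3 := by
        rw [hc3, ← abs_pow]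
        have e : (((0:ℤ):ℝ))^2 - (P.1:ℝ)^3 = -(P.1:ℝ)^3 := by push_cast; ring
        rw [e, abs_neg] at h3
        exact h3
      have h5 : |(P.1:ℝ)| ≤ c := (pow_le_pow_iff_left₀ (abs_nonneg _) (by linarith) (by norm_num)).mp h4
      have h6 : ((P.1.natAbs : ℕ):ℝ) ≤ c := by
        have : ((P.1.natAbs : ℕ):ℝ) = |(P.1:ℝ)| := by
          rw [← Int.cast_abs, Int.abs_eq_natAbs]; simp
        rw [this]; exact h5
      have h7 : P.1.natAbs ≤ m := Nat.le_floor h6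
      have : P.1 ∈ Finset.Icc (-(m:ℤ)) m := by
        rw [Finset.mem_Icc]; omega
      exact this
    · intro P hP Q hQ hPQ
      have hP' := (mem_filter.mp (show P ∈ h.toFinset.filter (fun P => P.2 = 0) from hP)).2
      have hQ' := (mem_filter.mp (show Q ∈ h.toFinset.filter (fun P => P.2 = 0) from hQ)).2
      exact Prod.ext hPQ (by rw [hP', hQ'])
  have h2 : ((h.toFinset.filter (fun P => P.2 = 0)).card : ℝ)
      ≤ ((Finset.Icc (-(m:ℤ)) m).card : ℝ) := by exact_mod_cast h1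
  refine h2.trans ?_
  rw [Int.card_Icc]
  have e : ((m:ℤ) + 1 - (-(m:ℤ))).toNat = m + 1 + m := by omega
  rw [e]; push_cast; linarith

lemma natAbs_cast (D : ℤ) : ((D.natAbs : ℕ):ℝ) = |(D:ℝ)| := by
  rw [← Int.cast_abs, Int.abs_eq_natAbs]; simp

lemma dv_bound {C0 K Y : ℝ} (hC0 : 0 ≤ C0) (hK : 1 ≤ K) (hY : Y = K^((3:ℝ)/8))
    (hdiv : ∀ n : ℕ, n ≠ 0 → (n.divisors.card : ℝ) ≤ C0 * (n : ℝ) ^ ((1:ℝ)/18))
    (D x x' : ℤ) (hDe : D = x^3 - x'^3) (hD : D ≠ 0) (hx1 : |(x:ℝ)| ≤ Y) (hx2 : |(x':ℝ)| ≤ Y) :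
    ((dv D).card : ℝ) ≤ 4 * C0 * K^((1:ℝ)/16) := by
  have hK0 : 0 < K := by linarith
  have hY0 : 0 < Y := by rw [hY]; positivity
  have h2 : ((dv D).card : ℝ) ≤ 2 * (D.natAbs.divisors.card : ℝ) := by
    exact_mod_cast card_dv D
  have h3 := hdiv D.natAbs (Int.natAbs_ne_zero.mpr hD)
  have h4 : ((D.natAbs : ℕ):ℝ) ≤ 2 * Y^3 := by
    rw [natAbs_cast, hDe]
    push_cast
    calc |(x:ℝ)^3 - (x':ℝ)^3| ≤ |(x:ℝ)^3| + |(x':ℝ)^3| := abs_sub _ _
      _ = |(x:ℝ)|^3 + |(x':ℝ)|^3 := by rw [abs_pow, abs_pow]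
      _ ≤ Y^3 + Y^3 := by gcongr
      _ = 2 * Y^3 := by ring
  have e3 : (Y^3)^((1:ℝ)/18) = K^((1:ℝ)/16) := by
    rw [hY, ← Real.rpow_natCast, ← Real.rpow_mul hK0.le, ← Real.rpow_mul hK0.le]
    norm_num
  have h5 : ((D.natAbs : ℕ):ℝ)^((1:ℝ)/18) ≤ 2 * K^((1:ℝ)/16) := by
    calc ((D.natAbs : ℕ):ℝ)^((1:ℝ)/18) ≤ (2 * Y^3)^((1:ℝ)/18) :=
          Real.rpow_le_rpow (by positivity) h4 (by norm_num)
      _ = 2^((1:ℝ)/18) * (Y^3)^((1:ℝ)/18) := Real.mul_rpow (by norm_num) (by positivity)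
      _ ≤ 2^(1:ℝ) * (Y^3)^((1:ℝ)/18) := by
          apply mul_le_mul_of_nonneg_right _ (by positivity)
          exact Real.rpow_le_rpow_of_exponent_le (by norm_num) (by norm_num)
      _ = 2 * K^((1:ℝ)/16) := by rw [Real.rpow_one, e3]
  calc ((dv D).card : ℝ) ≤ 2 * (D.natAbs.divisors.card : ℝ) := h2
    _ ≤ 2 * (C0 * ((D.natAbs : ℕ):ℝ)^((1:ℝ)/18)) := by gcongr
    _ ≤ 2 * (C0 * (2 * K^((1:ℝ)/16))) := by gcongr
    _ = 4 * C0 * K^((1:ℝ)/16) := by ring

lemma card_sym (N : ℕ) {Y : ℝ} (hY : 1 ≤ Y) (hN1 : (N:ℝ) ≤ Y) :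
    ((Finset.Icc (-(N:ℤ)) N).card : ℝ) ≤ 3 * Y := by
  rw [Int.card_Icc]
  have e : ((N:ℤ) + 1 - (-(N:ℤ))).toNat = N + 1 + N := by omega
  rw [e]; push_cast; linarith

/-- collisions with small `x` -/
lemma exists_col_bound : ∃ C : ℝ, 0 ≤ C ∧ ∀ K : ℝ, 1 ≤ K → ∀ A : Finset (ℤ × ℤ),
    (∀ P ∈ A, |(P.1:ℝ)| ≤ K^((3:ℝ)/8)) → ((Col A).card : ℝ) ≤ C * K^((13:ℝ)/16) := by
  obtain ⟨C0, hC0, hdiv⟩ := Pool.Agent.LibHLP.exists_card_divisors_le (1/18) (by norm_num)
  refine ⟨9 * (4 * C0), by positivity, ?_⟩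
  intro K hK A hA
  have hK0 : 0 < K := by linarith
  obtain ⟨Y, hY⟩ : ∃ Y : ℝ, Y = K^((3:ℝ)/8) := ⟨_, rfl⟩
  have hY1 : 1 ≤ Y := by rw [hY]; exact Real.one_le_rpow hK (by norm_num)
  obtain ⟨N, hN⟩ : ∃ N : ℕ, N = ⌊Y⌋₊ := ⟨_, rfl⟩
  have hN1 : (N:ℝ) ≤ Y := by rw [hN]; exact Nat.floor_le (by linarith)
  obtain ⟨τ, hτ⟩ : ∃ τ : ℕ, τ = ⌊4 * C0 * K^((1:ℝ)/16)⌋₊ := ⟨_, rfl⟩
  have hpos : 0 ≤ 4 * C0 * K^((1:ℝ)/16) := by positivity
  have hτ1 : (τ:ℝ) ≤ 4 * C0 * K^((1:ℝ)/16) := by rw [hτ]; exact Nat.floor_le hpos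
  have hAI : ∀ P ∈ A, P.1 ∈ Finset.Icc (-(N:ℤ)) N := by
    intro P hP
    have h6 : ((P.1.natAbs : ℕ):ℝ) ≤ Y := by
      rw [natAbs_cast, hY]; exact hA P hP
    have h7 : P.1.natAbs ≤ N := by rw [hN]; exact Nat.le_floor h6
    rw [Finset.mem_Icc]; omega
  have hIY : ∀ x ∈ Finset.Icc (-(N:ℤ)) N, |(x:ℝ)| ≤ Y := by
    intro x hx
    rw [Finset.mem_Icc] at hx
    rw [abs_le]
    have a1 : -(N:ℝ) ≤ x := by exact_mod_cast hx.1
    have a2 : (x:ℝ) ≤ N := by exact_mod_cast hx.2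
    constructor <;> linarith
  have hdv : ∀ x ∈ Finset.Icc (-(N:ℤ)) N, ∀ x' ∈ Finset.Icc (-(N:ℤ)) N, x ≠ x' →
      (dv (x^3 - x'^3)).card ≤ τ := by
    intro x hx x' hx' hne
    rw [hτ]
    apply Nat.le_floor
    have hD : x^3 - x'^3 ≠ 0 := by
      intro h
      apply hne
      have h5 : x^3 = x'^3 := by linarith
      exact (Odd.strictMono_pow (by decide : Odd 3)).injective h5
    exact dv_bound (by linarith) hK hY hdiv (x^3 - x'^3) x x' rfl hD (hIY x hx) (hIY x' hx')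
  have h1 := card_Col hAI hdv
  have h2 : ((Col A).card : ℝ) ≤ ((Finset.Icc (-(N:ℤ)) N).card : ℝ)
      * ((Finset.Icc (-(N:ℤ)) N).card : ℝ) * τ := by exact_mod_cast h1
  have e := card_sym N hY1 hN1
  have e2 : Y * Y * K^((1:ℝ)/16) = K^((13:ℝ)/16) := by
    rw [hY, ← Real.rpow_add hK0, ← Real.rpow_add hK0]
    norm_num
  calc ((Col A).card : ℝ) ≤ _ := h2
    _ ≤ (3*Y) * (3*Y) * (4 * C0 * K^((1:ℝ)/16)) := by gcongr
    _ = 9 * (4 * C0) * (Y * Y * K^((1:ℝ)/16)) := by ring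
    _ = 9 * (4 * C0) * K^((13:ℝ)/16) := by rw [e2]

/-- **The number of `k`** from the number of points. -/
theorem count_k : ∃ C : ℝ, 0 < C ∧ ∀ K X E : ℝ, 1 ≤ K → K^((1:ℝ)/3) ≤ X →
    (PS K X).Finite → |((PS K X).ncard : ℝ) - V * K^((5:ℝ)/6)| ≤ E →
    (BK K X).Finite ∧
    |((BK K X).ncard : ℝ) - V / 2 * K^((5:ℝ)/6)| ≤ E + C * K^((13:ℝ)/16) := by
  obtain ⟨C1, hC1, hmain⟩ := main_term
  obtain ⟨C2, hC2, hcol⟩ := exists_col_bound
  refine ⟨2*C1 + C2 + 3, by positivity, ?_⟩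
  intro K X E hK hX hfin hE
  classical
  have hK0 : 0 < K := by linarith
  set A := hfin.toFinset with hA
  have hAc : ((PS K X).ncard : ℝ) = (A.card : ℝ) := by
    rw [Set.ncard_eq_toFinset_card _ hfin]
  rw [hAc] at hE
  rw [BK_eq hfin]
  refine ⟨Finset.finite_toSet _, ?_⟩
  rw [Set.ncard_coe_finset, ← hA]
  set B := A.image kk with hB
  have hE' := abs_le.mp hE
  have hE0 : 0 ≤ E := (abs_nonneg _).trans hE
  set T := K^((13:ℝ)/16) with hT
  have hT0 : 0 < T := by positivity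
  -- upper bound
  have hup : 2 * (B.card : ℝ) ≤ A.card + 3 * T := by
    have h1 := two_card_le hfin
    have h2 : 2 * (B.card : ℝ) ≤ A.card + ((A.filter (fun P => P.2 = 0)).card : ℝ) := by
      exact_mod_cast h1
    have h3 := card_A0_le hK hfin
    have h4 : K^((1:ℝ)/3) ≤ T := Real.rpow_le_rpow_of_exponent_le hK (by norm_num)
    linarith
  -- lower bound
  set Y := K^((3:ℝ)/8) with hY
  set A0 := A.filter (fun P => |(P.1:ℝ)| ≤ Y) with hA0
  set A1 := A.filter (fun P => ¬ |(P.1:ℝ)| ≤ Y) with hA1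
  have hsum : A0.card + A1.card = A.card := card_filter_add_card_filter_not _
  have hcolA := hcol K hK A0 (fun P hP => (mem_filter.mp hP).2)
  have h5 := card_le_col A0
  have h6 : (A0.image kk).card ≤ B.card :=
    card_le_card (image_subset_image (filter_subset _ _))
  have hYsq : Real.sqrt Y = K^((3:ℝ)/16) := by
    rw [Real.sqrt_eq_rpow, hY, ← Real.rpow_mul hK0.le]; norm_num
  have hA1le : (A1.card : ℝ) ≤ E + 2 * C1 * T := by
    rcases le_total Y X with hYX | hYX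
    · have h7 := hmain K Y hK (Real.rpow_le_rpow_of_exponent_le hK (by norm_num))
      have h8 : (A0 : Set (ℤ × ℤ)) = PS K Y := by
        ext P
        rw [hA0, Finset.coe_filter]
        simp only [Set.mem_setOf_eq, hA, Set.Finite.mem_toFinset]
        unfold PS
        constructor
        · rintro ⟨⟨-, h2, h3⟩, h4⟩
          exact ⟨h4, h2, h3⟩
        · rintro ⟨h4, h2, h3⟩
          exact ⟨⟨h4.trans hYX, h2, h3⟩, h4⟩
      have h9 : ((PS K Y).ncard : ℝ) = A0.card := by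
        rw [← h8, Set.ncard_coe_finset]
      have h10 := h7.2
      change |((PS K Y).ncard : ℝ) - V * K^((5:ℝ)/6)| ≤ _ at h10
      rw [h9] at h10
      have h11 := abs_le.mp h10
      have h12 : K / Real.sqrt Y + Y ≤ 2 * T := by
        have e1 : K / Real.sqrt Y = T := by
          rw [hYsq, div_eq_iff (by positivity), hT, ← Real.rpow_add hK0]
          norm_num
        have e2 : Y ≤ T := Real.rpow_le_rpow_of_exponent_le hK (by norm_num)
        linarith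
      have h13 : C1 * (K / Real.sqrt Y + Y) ≤ C1 * (2 * T) := by gcongr
      have h14 : (A0.card : ℝ) + A1.card = A.card := by exact_mod_cast hsum
      linarith [hE'.2, h11.1]
    · have : A1 = ∅ := by
        apply Finset.eq_empty_of_forall_notMem
        intro P hP
        rw [hA1, mem_filter, hA, Set.Finite.mem_toFinset] at hP
        exact hP.2 (hP.1.1.trans hYX)
      rw [this]
      simp only [card_empty, Nat.cast_zero]
      positivity
  have h14 : (A0.card : ℝ) + A1.card = A.card := by exact_mod_cast hsum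
  have h15 : (A0.card : ℝ) ≤ 2 * (B.card : ℝ) + (Col A0).card := by
    have : A0.card ≤ 2 * B.card + (Col A0).card := by omega
    exact_mod_cast this
  rw [abs_le]
  constructor
  · nlinarith [hE'.1, mul_pos hC1 hT0, mul_nonneg hC2 hT0.le]
  · nlinarith [hE'.2, mul_pos hC1 hT0, mul_nonneg hC2 hT0.le]

end

end Pool.Agent.MA44
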