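import Mathlib
import Pool.Agent.LibMA44.C2

/-! assembly from the tail bound. -/

namespace Pool.Agent.MA44

noncomputable section

open Finset

/-- the tail bound (helper55) -/
def TailH : Prop := ∀ ε : ℝ, 0 < ε → ∃ C : ℝ, ∀ H X : ℝ, 1 ≤ H → 1 ≤ X →
  ({P : ℤ × ℤ | 4 * H^2 < (P.1:ℝ) ∧ (P.1:ℝ) ≤ X ∧ P.2^2 ≠ P.1^3 ∧
    |(P.2:ℝ)^2 - (P.1:ℝ)^3| ≤ H^3}.ncard : ℝ)
    ≤ C * ((H^3)^((2:ℝ)/3+ε) + (X^((1:ℝ)/4) * H^((1:ℝ)/2))^(1+ε))

theorem points (hT : TailH) (ε : ℝ) (hε : 0 < ε) : ∃ C : ℝ, 0 < C ∧ ∀ K X : ℝ, 1 ≤ K →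
    K^((1:ℝ)/3) ≤ X →
    (PS K X).Finite ∧ |((PS K X).ncard : ℝ) - V * K^((5:ℝ)/6)|
      ≤ C * (K / Real.sqrt X + K^((2:ℝ)/3+ε) + (X^((1:ℝ)/4) * K^((1:ℝ)/6))^(1+ε)) := by
  obtain ⟨C2, hC2⟩ := hT ε hε
  refine ⟨34*5 + |C2|, by positivity, ?_⟩
  intro K X hK hX
  have hK0 : 0 < K := by linarith
  have hX0 : 0 < X := lt_of_lt_of_le (by positivity) hX
  have hX1 : 1 ≤ X := le_trans (Real.one_le_rpow hK (by norm_num)) hX
  have hfin := (main_term0 hK hX).1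
  refine ⟨hfin, ?_⟩
  obtain ⟨c, hc⟩ : ∃ c : ℝ, c = K^((1:ℝ)/3) := ⟨_, rfl⟩
  have hc1 : 1 ≤ c := by rw [hc]; exact Real.one_le_rpow hK (by norm_num)
  have hc3 : c^3 = K := by
    rw [hc, ← Real.rpow_natCast, ← Real.rpow_mul hK0.le]; norm_num
  have hc2 : c^2 = K^((2:ℝ)/3) := by
    rw [hc, ← Real.rpow_natCast, ← Real.rpow_mul hK0.le]; norm_num
  have hch : c^((1:ℝ)/2) = K^((1:ℝ)/6) := by
    rw [hc, ← Real.rpow_mul hK0.le]; norm_num
  obtain ⟨Y, hY⟩ : ∃ Y : ℝ, Y = 4 * c^2 := ⟨_, rfl⟩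
  have hY0 : 0 < Y := by rw [hY]; positivity
  have hcY : c ≤ Y := by rw [hY]; nlinarith
  have hKe : K^((2:ℝ)/3) ≤ K^((2:ℝ)/3+ε) :=
    Real.rpow_le_rpow_of_exponent_le hK (by linarith)
  have hd0 : 0 ≤ K / Real.sqrt X := by positivity
  have hd1 : 0 ≤ K^((2:ℝ)/3+ε) := by positivity
  have hd2 : 0 ≤ (X^((1:ℝ)/4) * K^((1:ℝ)/6))^(1+ε) := by positivity
  rcases le_total X Y with hXY | hXY
  · have h1 := (main_term0 hK hX).2
    rw [← V_eq] at h1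
    refine h1.trans ?_
    have : X ≤ 4 * K^((2:ℝ)/3+ε) := by rw [hY, hc2] at hXY; linarith
    have h2 := abs_nonneg C2
    nlinarith [mul_nonneg h2 hd0, mul_nonneg h2 hd1, mul_nonneg h2 hd2]
  · have h1 := (main_term0 (Y := Y) hK (by rw [← hc]; exact hcY)).2
    rw [← V_eq] at h1
    have hKY : K / Real.sqrt Y ≤ K^((2:ℝ)/3) := by
      have e : Real.sqrt Y = 2 * c := by
        rw [hY, show 4 * c^2 = (2*c)^2 by ring, Real.sqrt_sq (by linarith)]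
      rw [e, div_le_iff₀ (by linarith), ← hc2, ← hc3]
      have : 0 ≤ c^3 := by positivity
      nlinarith
    have h2 : |((PS K Y).ncard : ℝ) - V * K^((5:ℝ)/6)| ≤ 34 * (5 * K^((2:ℝ)/3+ε)) := by
      refine h1.trans ?_
      have : Y = 4 * K^((2:ℝ)/3) := by rw [hY, hc2]
      nlinarith
    set T : Set (ℤ × ℤ) := {P : ℤ × ℤ | 4 * c^2 < (P.1:ℝ) ∧ (P.1:ℝ) ≤ X ∧ P.2^2 ≠ P.1^3 ∧
      |(P.2:ℝ)^2 - (P.1:ℝ)^3| ≤ c^3} with hTdef
    have h3 := hC2 c X hc1 hX1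
    rw [← hTdef] at h3
    have hsub1 : PS K X ⊆ PS K Y ∪ T := by
      intro P hP
      obtain ⟨a1, a2, a3⟩ := hP
      by_cases h : |(P.1:ℝ)| ≤ Y
      · left; exact ⟨h, a2, a3⟩
      · right
        push Not at h
        have hpos : 0 < (P.1:ℝ) := by
          by_contra hn
          push Not at hn
          rw [abs_of_nonpos hn] at h
          -- x < -Y, so x^3 < -K
          have h4 : (P.1:ℝ) ≤ -c := by linarith
          have h5 := cube_le h4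
          have h6 : (P.1:ℝ) < -c := by linarith
          have h7 : (P.1:ℝ)^3 < (-c)^3 := (Odd.strictMono_pow (by decide : Odd 3)) h6
          have e : (-c)^3 = -K := by rw [← hc3]; ring
          rw [e] at h7
          have := (abs_le.mp a3).2
          nlinarith [sq_nonneg (P.2:ℝ)]
        rw [abs_of_pos hpos] at h a1
        refine ⟨by rw [← hY]; exact h, a1, a2, by rw [hc3]; exact a3⟩
    have hsub2 : T ⊆ PS K X := by
      intro P hP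
      obtain ⟨a1, a2, a3, a4⟩ := hP
      refine ⟨?_, a3, by rw [← hc3]; exact a4⟩
      rw [abs_of_pos (lt_of_le_of_lt (by positivity) a1)]; exact a2
    have hsub3 : PS K Y ⊆ PS K X := by
      intro P hP
      obtain ⟨a1, a2, a3⟩ := hP
      exact ⟨a1.trans hXY, a2, a3⟩
    have hle : ((PS K X).ncard : ℝ) ≤ (PS K Y).ncard + T.ncard := by
      have h4 : (PS K X).ncard ≤ (PS K Y ∪ T).ncard :=
        Set.ncard_le_ncard hsub1 ((hfin.subset hsub3).union (hfin.subset hsub2))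
      have h5 := Set.ncard_union_le (PS K Y) T
      exact_mod_cast h4.trans h5
    have hge : ((PS K Y).ncard : ℝ) ≤ (PS K X).ncard := by
      exact_mod_cast Set.ncard_le_ncard hsub3 hfin
    have h2' := abs_le.mp h2
    have h3' : (T.ncard : ℝ) ≤ |C2| * (K^((2:ℝ)/3+ε) + (X^((1:ℝ)/4) * K^((1:ℝ)/6))^(1+ε)) := by
      rw [hc3, hch] at h3
      refine h3.trans ?_
      apply mul_le_mul_of_nonneg_right (le_abs_self _) (by positivity)
    have hT0 : 0 ≤ (T.ncard : ℝ) := by positivity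
    have h6 := abs_nonneg C2
    rw [abs_le]
    constructor
    · nlinarith [mul_nonneg h6 hd0, mul_nonneg h6 hd1, mul_nonneg h6 hd2]
    · nlinarith [mul_nonneg h6 hd0, mul_nonneg h6 hd1, mul_nonneg h6 hd2]

/-- points and `k`s, with a power saving in the whole range `K^(1/3+δ) ≤ X ≤ K^(8/3-δ)` -/
theorem final (hT : TailH) (δ : ℝ) (hδ : 0 < δ) : ∃ η C : ℝ, 0 < η ∧ 0 < C ∧ ∀ K X : ℝ, 1 ≤ K →
    K^((1:ℝ)/3 + δ) ≤ X → X ≤ K^((8:ℝ)/3 - δ) →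
    ((PS K X).Finite ∧ |((PS K X).ncard : ℝ) - V * K^((5:ℝ)/6)| ≤ C * K^((5:ℝ)/6 - η)) ∧
    ((BK K X).Finite ∧ |((BK K X).ncard : ℝ) - V / 2 * K^((5:ℝ)/6)| ≤ C * K^((5:ℝ)/6 - η)) := by
  -- choose ε
  set δ' := min δ 1 with hδ'
  have hδ0 : 0 < δ' := lt_min hδ one_pos
  have hδ1 : δ' ≤ 1 := min_le_right _ _
  have hδ2 : δ' ≤ δ := min_le_left _ _
  set ε := δ' / 16 with hε
  have hε0 : 0 < ε := by positivity
  obtain ⟨C1, hC1, hpts⟩ := points hT ε hε0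
  obtain ⟨C2, hC2, hk⟩ := count_k
  set η := min (δ'/8) (1/48) with hη
  have hη0 : 0 < η := lt_min (by positivity) (by norm_num)
  have hη1 : η ≤ δ'/8 := min_le_left _ _
  have hη2 : η ≤ 1/48 := min_le_right _ _
  refine ⟨η, 3*C1 + C2, hη0, by positivity, ?_⟩
  intro K X hK hX1 hX2
  have hK0 : 0 < K := by linarith
  have hX1' : K^((1:ℝ)/3) ≤ X :=
    (Real.rpow_le_rpow_of_exponent_le hK (by linarith)).trans hX1
  have hX0 : 0 < X := lt_of_lt_of_le (by positivity) hX1'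
  obtain ⟨hfin, hp⟩ := hpts K X hK hX1'
  set T := K^((5:ℝ)/6 - η) with hTdef
  have hT0 : 0 < T := by positivity
  have e1 : K / Real.sqrt X ≤ T := by
    have h1 : K^(((1:ℝ)/3 + δ)/2) ≤ Real.sqrt X := by
      rw [Real.sqrt_eq_rpow]
      calc K^(((1:ℝ)/3 + δ)/2) = (K^((1:ℝ)/3 + δ))^((1:ℝ)/2) := by
            rw [← Real.rpow_mul hK0.le]; congr 1; ring
        _ ≤ X^((1:ℝ)/2) := Real.rpow_le_rpow (by positivity) hX1 (by norm_num)
    calc K / Real.sqrt X ≤ K / K^(((1:ℝ)/3 + δ)/2) :=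
          div_le_div_of_nonneg_left hK0.le (by positivity) h1
      _ = K^(1 - ((1:ℝ)/3 + δ)/2) := by rw [Real.rpow_sub hK0, Real.rpow_one]
      _ ≤ T := Real.rpow_le_rpow_of_exponent_le hK (by linarith)
  have e2 : K^((2:ℝ)/3+ε) ≤ T := Real.rpow_le_rpow_of_exponent_le hK (by
    rw [hε]; linarith)
  have e3 : (X^((1:ℝ)/4) * K^((1:ℝ)/6))^(1+ε) ≤ T := by
    have h1 : X^((1:ℝ)/4) ≤ K^(((8:ℝ)/3 - δ')/4) := by
      calc X^((1:ℝ)/4) ≤ (K^((8:ℝ)/3 - δ'))^((1:ℝ)/4) := by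
            apply Real.rpow_le_rpow hX0.le _ (by norm_num)
            exact hX2.trans (Real.rpow_le_rpow_of_exponent_le hK (by linarith))
        _ = K^(((8:ℝ)/3 - δ')/4) := by rw [← Real.rpow_mul hK0.le]; congr 1; ring
    calc (X^((1:ℝ)/4) * K^((1:ℝ)/6))^(1+ε)
        ≤ (K^(((8:ℝ)/3 - δ')/4) * K^((1:ℝ)/6))^(1+ε) := by
          apply Real.rpow_le_rpow (by positivity) _ (by linarith)
          gcongr
      _ = K^((((8:ℝ)/3 - δ')/4 + 1/6) * (1+ε)) := by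
          rw [← Real.rpow_add hK0, ← Real.rpow_mul hK0.le]
      _ ≤ T := by
          apply Real.rpow_le_rpow_of_exponent_le hK
          have h2 : (((8:ℝ)/3 - δ')/4 + 1/6) * (1+ε) = 5/6 - δ'/4 + (5/6 - δ'/4) * (δ'/16) := by
            rw [hε]; ring
          rw [h2]
          nlinarith
  have hp2 : |((PS K X).ncard : ℝ) - V * K^((5:ℝ)/6)| ≤ 3 * C1 * T := by
    refine hp.trans ?_
    have : C1 * (K / Real.sqrt X + K^((2:ℝ)/3+ε) + (X^((1:ℝ)/4) * K^((1:ℝ)/6))^(1+ε))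
        ≤ C1 * (T + T + T) := by gcongr
    linarith
  obtain ⟨hfk, hkk⟩ := hk K X (3 * C1 * T) hK hX1' hfin hp2
  have e4 : K^((13:ℝ)/16) ≤ T := Real.rpow_le_rpow_of_exponent_le hK (by linarith)
  refine ⟨⟨hfin, hp2.trans ?_⟩, hfk, hkk.trans ?_⟩
  · nlinarith
  · nlinarith

end

end Pool.Agent.MA44
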